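import Pool.Agent.H6.LH.Qua
import Pool.Agent.H6.LG.Big6

set_option autoImplicit false

/-!
PROJECT QG (MP_bf82d2_ag, note 6459), module Low6.  Six or more branch points.
PROOF. `n = |G| ≥ 2`, `y = N - 4 ≥ 2`. `ineq_P` and `arith_n` (`Pool/Agent/H82/CO`; see `Pool/Agent/H6/LG/Big6.lean`, `k = N - 6`, `y = k + 2`):
`2 n (quadInv - (N - 3)) ≥ 2 - n (5 y / 4 + 2) + n^2 (y^2 / 16 - 5 / 32)`. `quadB_eq`: `quadB - (3 h - 3 + N) = (quadInv - (N - 3)) + h (1 + n (nu - 2) / 2) + h^2 n / 2 + h t / 2 - 3 h`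
with `nu ≥ N / 2` (`nu_ge`), `t = rt 1 ≥ 0`, so the last part is `≥ h (n y / 4 + h n / 2 - 2) ≥ h^2 n / 4 - 1 / 2` (`n y / 4 ≥ 1`, `h ≤ h^2 / 2 + 1 / 2`).
`genusB ≤ 1 + n (y + 2) / 2 + h n ≤ 1 + n (y + h)` (`genusB_eq`, `nu_le`), so `genusB^2 / n ≤ 1 + 4 n y^2 + 4 n h^2` (`n ≥ 2`). With `c = 1 / 1000`:
`n (y^2 / 32 - 5 / 64 - 4 c y^2) - 5 y / 8 - 1 ≥ - 3` (the bracket is `≥ 0` for `y ≥ 2`, so replace `n` by `2`: `0.0545 y^2 - 0.15625 - 0.625 y + 2 ≥ 0`).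
It is best to multiply everything by `n` (so that `genusB ^ 2 / n` becomes `genusB ^ 2`).
-/

namespace Pool.Agent.H6.QG

open Finset Pool.Agent.H6.LH
open Pool.Agent.H82.CO (chi quadInv nu genus eps zeta rt)

variable {G : Type} [Group G] [Fintype G] {N : ℕ}

private theorem arith_Low6 {n y h : ℝ} (hn : 2 ≤ n) (hy : 2 ≤ y) (hh : 0 ≤ h) :
    1 / 500 * (1 + n * (y + h)) ^ 2 - 8 * n ≤
      2 - n * (5 * y / 4 + 2) + n ^ 2 * (y ^ 2 / 16 - 5 / 32) +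
        (n ^ 2 * h * y / 2 - 4 * n * h + h ^ 2 * n ^ 2) := by
  obtain ⟨m, hm⟩ : ∃ m, m = n - 2 := ⟨_, rfl⟩
  obtain ⟨z, hz⟩ : ∃ z, z = y - 2 := ⟨_, rfl⟩
  have hm0 : 0 ≤ m := by linarith
  have hz0 : 0 ≤ z := by linarith
  have ha : 0 ≤ 109 / 2000 * y ^ 2 - 5 / 32 := by nlinarith
  have h1 : 0 ≤ m * (6 - 5 * y / 4 + 4 * (109 / 2000 * y ^ 2 - 5 / 32)) := by
    refine mul_nonneg hm0 ?_
    nlinarith [sq_nonneg (y - 625 / 218)]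
  have h2 : 0 ≤ m ^ 2 * (109 / 2000 * y ^ 2 - 5 / 32) := mul_nonneg (sq_nonneg _) ha
  have h3 : 0 ≤ 218 / 1000 * y ^ 2 - 5 / 2 * y + 15 / 2 := by nlinarith [sq_nonneg (y - 625 / 109)]
  have hw0 : 0 ≤ n * h := mul_nonneg (by linarith) hh
  have h4 : 0 ≤ (n * h) * (n * z + 2 * m) / 2 :=
    div_nonneg (mul_nonneg hw0 (add_nonneg (mul_nonneg (by linarith) hz0) (by linarith))) (by norm_num)
  have h5 : (1 + n * (y + h)) ^ 2 ≤ 2 + 4 * n ^ 2 * y ^ 2 + 4 * n ^ 2 * h ^ 2 := by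
    nlinarith [sq_nonneg (1 - n * (y + h)), sq_nonneg (n * (y - h))]
  have h6 : -2 ≤ 124 / 125 * (n * h) ^ 2 - 2 * (n * h) := by nlinarith [sq_nonneg (n * h - 1)]
  have e1 : n = m + 2 := by linarith
  have e2 : y = z + 2 := by linarith
  have k1 : 2 - n * (5 * y / 4 + 2) + n ^ 2 * (y ^ 2 / 16 - 5 / 32) + 8 * n -
      (1 / 500 * (2 + 4 * n ^ 2 * y ^ 2)) =
      m * (6 - 5 * y / 4 + 4 * (109 / 2000 * y ^ 2 - 5 / 32)) +
      m ^ 2 * (109 / 2000 * y ^ 2 - 5 / 32) +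
      (218 / 1000 * y ^ 2 - 5 / 2 * y + (14 - 1 / 250 - 5 / 8)) := by
    rw [e1]
    ring
  have k2 : n ^ 2 * h * y / 2 - 4 * n * h + h ^ 2 * n ^ 2 - 1 / 500 * (4 * n ^ 2 * h ^ 2) =
      (n * h) * (n * z + 2 * m) / 2 + (124 / 125 * (n * h) ^ 2 - 2 * (n * h)) := by
    rw [e1, e2]
    ring
  linarith

theorem low6 (h : ℕ) (s : Fin N → G) (hs : ∀ i, s i ≠ 1) (hN : 6 ≤ N) :
    1 / 1000 * (genusB h s ^ 2 / (Nat.card G : ℝ)) - 4 ≤ (quadB h s).re - (3 * (h : ℝ) - 3 + N) := by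
  obtain ⟨n, P, k, hn, hP, hk, hn2, hPn, hmain⟩ := Pool.Agent.H82.CO.ineq_P s hs hN
  have hN' : (6 : ℝ) ≤ N := by exact_mod_cast hN
  have hk0 : 0 ≤ k := by
    rw [hk]
    linarith
  have h1 := (Pool.Agent.H82.CO.arith_n hn2 hk0 hPn).trans hmain
  have hq := quadB_eq h s
  have hg := genusB_eq h s
  have hnu := Pool.Agent.H82.CO.nu_ge s hs
  have hnu' := Pool.Agent.H6.LG.nu_le s
  have hrt : 0 ≤ rt (1 : G) := by
    unfold rt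
    positivity
  have hh : (0 : ℝ) ≤ (h : ℝ) := Nat.cast_nonneg _
  obtain ⟨y, hy⟩ : ∃ y : ℝ, y = k + 2 := ⟨_, rfl⟩
  have hy2 : 2 ≤ y := by linarith
  have hNy : (N : ℝ) = y + 4 := by linarith
  rw [← hn] at hq hg ⊢
  rw [← hy] at h1
  obtain ⟨D, hD⟩ : ∃ D : ℝ, D = (quadInv s).re - ((N : ℝ) - 3) := ⟨_, rfl⟩
  rw [← hD] at h1
  have hn0 : 0 < n := by linarith
  have hE : D + (h : ℝ) * (n * y / 4 - 2) + (h : ℝ) ^ 2 * n / 2 ≤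
      (quadB h s).re - (3 * (h : ℝ) - 3 + N) := by
    rw [hq]
    have h2 : 0 ≤ (h : ℝ) * (n * (nu s - 2 - y / 2)) :=
      mul_nonneg hh (mul_nonneg hn0.le (by linarith))
    have h3 : 0 ≤ (h : ℝ) * rt (1 : G) := mul_nonneg hh hrt
    nlinarith
  refine le_trans ?_ hE
  have hg0 : 0 ≤ genusB h s := by
    rw [hg]
    have : 0 ≤ n * (2 * (h : ℝ) - 2 + nu s) := mul_nonneg hn0.le (by linarith)
    linarith
  have hg1 : genusB h s ≤ 1 + n * (y + h) := by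
    rw [hg]
    have : 0 ≤ n * (2 * y + 2 * h - (2 * (h : ℝ) - 2 + nu s)) :=
      mul_nonneg hn0.le (by linarith)
    nlinarith
  have hg2 : genusB h s ^ 2 ≤ (1 + n * (y + h)) ^ 2 := pow_le_pow_left₀ hg0 hg1 2
  have h7 := arith_Low6 hn2 hy2 hh
  have h8 : 2 * n * (1 / 1000 * (genusB h s ^ 2 / n) - 4) ≤
      2 * n * (D + (h : ℝ) * (n * y / 4 - 2) + (h : ℝ) ^ 2 * n / 2) := by
    have e1 : 2 * n * (1 / 1000 * (genusB h s ^ 2 / n) - 4) = 1 / 500 * genusB h s ^ 2 - 8 * n := by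
      field_simp
      ring
    rw [e1]
    have e2 : 2 * n * (D + (h : ℝ) * (n * y / 4 - 2) + (h : ℝ) ^ 2 * n / 2) =
        2 * n * D + (n ^ 2 * h * y / 2 - 4 * n * h + (h : ℝ) ^ 2 * n ^ 2) := by ring
    rw [e2]
    linarith
  exact le_of_mul_le_mul_left h8 (by linarith)

end Pool.Agent.H6.QG
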