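import Pool.Agent.H6.LH.High

set_option autoImplicit false

/-!
PROJECT QG (MP_bf82d2_ag, note 6459), module LowH.  Base genus `h ≥ 2`, at most five branch points.
PROOF. The proof of `Pool.Agent.H6.LH.high` (`Pool/Agent/H6/LH/High.lean`) gives `quadB - (3 h - 3 + N) ≥ n k^2 / 2 + n nu (k - 1/2) / 2 - 2 k - 4`, `k = h - 1 ≥ 1`; drop the
`nu` term (`nu ≥ 0`). `genusB = 1 + n (k + nu / 2) ≤ 1 + n (k + 5 / 2) ≤ 1 + 7 n k / 2`, so `genusB^2 / n ≤ 2 + 49 n k^2 / 2` (`n ≥ 1`), and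
`n k^2 / 2 - (49 / 2000) n k^2 ≥ (19 / 40) k^2`, `(19 / 40) k^2 - 2 k ≥ - 2.2`. It is best to multiply everything by `n`.
-/

namespace Pool.Agent.H6.QG

open Finset Pool.Agent.H6.LH
open Pool.Agent.H82.CO (chi quadInv nu genus eps zeta rt)

variable {G : Type} [Group G] [Fintype G] {N : ℕ}

private theorem nu_le_LowH (s : Fin N → G) : nu s ≤ N := by
  unfold nu
  calc ∑ i, (1 - 1 / (orderOf (s i) : ℝ)) ≤ ∑ _i : Fin N, (1 : ℝ) := by
        refine sum_le_sum fun i _ => ?_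
        have h1 : (0 : ℝ) ≤ 1 / (orderOf (s i) : ℝ) := by positivity
        linarith
    _ = N := by simp

private theorem inv_le_LowH {g : G} (hg : g ≠ 1) : 1 / (orderOf g : ℝ) ≤ 1 - 1 / (orderOf g : ℝ) := by
  have h1 : 2 ≤ orderOf g := by
    have h2 := orderOf_pos g
    have h3 : orderOf g ≠ 1 := fun h4 => hg (orderOf_eq_one_iff.1 h4)
    omega
  have h5 : (2 : ℝ) ≤ orderOf g := by exact_mod_cast h1
  have h6 : 1 / (orderOf g : ℝ) ≤ 1 / 2 := one_div_le_one_div_of_le (by norm_num) h5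
  linarith

private theorem nu_nonneg_LowH (s : Fin N → G) (hs : ∀ i, s i ≠ 1) :
    ∑ i, 1 / (orderOf (s i) : ℝ) ≤ nu s ∧ 0 ≤ nu s := by
  have h1 : ∑ i, 1 / (orderOf (s i) : ℝ) ≤ nu s := by
    unfold nu
    exact sum_le_sum fun i _ => inv_le_LowH (hs i)
  have h2 : 0 ≤ ∑ i, 1 / (orderOf (s i) : ℝ) := sum_nonneg fun i _ => by positivity
  exact ⟨h1, h2.trans h1⟩

/-- The arithmetic. -/
private theorem arith_LowH {n k ν : ℝ} (hn : 1 ≤ n) (hk : 1 ≤ k) (hν : 0 ≤ ν) (hν5 : ν ≤ 5) :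
    1 / 1000 * ((1 + n * (2 * k + ν) / 2) ^ 2 / n) - 7 ≤
      n * k ^ 2 / 2 + n * ν * (k - 1 / 2) / 2 - 2 * k - 4 := by
  have hn0 : 0 < n := by linarith
  have h1 : 0 ≤ n * ν := mul_nonneg hn0.le hν
  have h2 : 0 ≤ n * ν * (k - 1 / 2) / 2 := by
    have h3 : 0 ≤ n * ν * (k - 1 / 2) := mul_nonneg h1 (by linarith)
    linarith
  have h3 : 1 + n * (2 * k + ν) / 2 ≤ 1 + 7 / 2 * (n * k) := by nlinarith
  have h4 : 0 ≤ 1 + n * (2 * k + ν) / 2 := by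
    have : 0 ≤ n * (2 * k + ν) := mul_nonneg hn0.le (by linarith)
    linarith
  have h5 : (1 + n * (2 * k + ν) / 2) ^ 2 ≤ (1 + 7 / 2 * (n * k)) ^ 2 := pow_le_pow_left₀ h4 h3 2
  have h6 : (1 + 7 / 2 * (n * k)) ^ 2 ≤ (2 + 49 / 2 * (n * k ^ 2)) * n := by
    have h7 : (1 + 7 / 2 * (n * k)) ^ 2 ≤ 2 + 49 / 2 * (n * k) ^ 2 := by
      nlinarith [sq_nonneg (1 - 7 / 2 * (n * k))]
    have h8 : (2 : ℝ) ≤ 2 * n := by linarith
    calc (1 + 7 / 2 * (n * k)) ^ 2 ≤ 2 + 49 / 2 * (n * k) ^ 2 := h7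
      _ ≤ 2 * n + 49 / 2 * (n * k) ^ 2 := by linarith
      _ = (2 + 49 / 2 * (n * k ^ 2)) * n := by ring
  have h7 : (1 + n * (2 * k + ν) / 2) ^ 2 / n ≤ 2 + 49 / 2 * (n * k ^ 2) := by
    rw [div_le_iff₀ hn0]
    exact h5.trans h6
  have h8 : k ^ 2 ≤ n * k ^ 2 := by
    have : 0 ≤ (n - 1) * k ^ 2 := mul_nonneg (by linarith) (sq_nonneg k)
    linarith
  nlinarith [sq_nonneg (k - 2)]

theorem lowH (h : ℕ) (hh : 2 ≤ h) (s : Fin N → G) (hs : ∀ i, s i ≠ 1) (hN : N ≤ 5) :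
    1 / 1000 * (genusB h s ^ 2 / (Nat.card G : ℝ)) - 7 ≤ (quadB h s).re - (3 * (h : ℝ) - 3 + N) := by
  obtain ⟨hν1, hν⟩ := nu_nonneg_LowH s hs
  have hN' : (N : ℝ) ≤ 5 := by exact_mod_cast hN
  have hν5 : nu s ≤ 5 := (nu_le_LowH s).trans hN'
  have hn1 : (1 : ℝ) ≤ Nat.card G := by exact_mod_cast Nat.card_pos
  have hn0 : (0 : ℝ) ≤ Nat.card G := by linarith
  have hk : (2 : ℝ) ≤ h := by exact_mod_cast hh
  have hq := quadB_eq h s
  have h2q := Pool.Agent.H82.SQ.two_quadInv s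
  have hrho : Pool.Agent.H82.SQ.rho s ≤ Nat.card G * nu s :=
    (Pool.Agent.H82.SQ.rho_le' s).trans (mul_le_mul_of_nonneg_left hν1 hn0)
  have hT := tensor_lb s hs
  have ht : 0 ≤ rt (1 : G) := Pool.Agent.H82.SQ.rt_nonneg 1
  have hsq : 0 ≤ (Nat.card G : ℝ) * nu s ^ 2 / 6 := by positivity
  have ht1 : 0 ≤ rt (1 : G) * ((h : ℝ) - 1) := mul_nonneg ht (by linarith)
  have ht2 : 0 ≤ rt (1 : G) * nu s := mul_nonneg ht hν
  have hg : genusB h s = 1 + (Nat.card G : ℝ) * (2 * ((h : ℝ) - 1) + nu s) / 2 := by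
    rw [genusB_eq]
    ring
  have ha := arith_LowH (k := (h : ℝ) - 1) hn1 (by linarith) hν hν5
  rw [← hg] at ha
  refine ha.trans ?_
  rw [hq]
  generalize (quadInv s).re = q at *
  generalize (quadInv s + Pool.Agent.H82.CO.extInv s).re = T at *
  generalize Pool.Agent.H82.SQ.rho s = r at *
  generalize rt (1 : G) = t at *
  generalize nu s = ν at *
  generalize (Nat.card G : ℝ) = n at *
  generalize (h : ℝ) = k at *
  nlinarith [h2q, hrho, hT, hsq, ht1, ht2, hN']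

end Pool.Agent.H6.QG
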