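import Pool.Agent.H6.QG.Upq
import Pool.Agent.H6.LH.Cor

set_option autoImplicit false

/-!
PROJECT QG (MP_bf82d2_ag, note 6459), module Upp.  The upper bound.
PROOF. `quadB_eq`, `two_quadInv` (`Pool/Agent/H82/SQ/FS.lean`), `tensor_le`, `rho ≥ 0`, `t = rt 1 ∈ [0, n]`, `N ≤ 2 nu` (`nu_ge`):
`2 quadB ≤ n (h - 1)^2 + n nu (h - 1) + 2 h + 4 n nu^2 + t (h - 1 + nu / 2)`. `genusB - 1 = n (2 h - 2 + nu) / 2`, so the claim is `2 quadB ≤ 750 n (2 h - 2 + nu)^2`.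
`card_le`: `n ≤ 12 (genusB - 1) = 6 n (2 h - 2 + nu)`, so `m = 2 h - 2 + nu ≥ 1 / 6`.
`h = 0`: `nu = m + 2 ≤ 13 m` and `2 quadB ≤ 4 n nu^2 ≤ 676 n m^2` (`t (nu/2 - 1) ≤ n (nu / 2 - 1)`).
`h = 1`: `2 quadB ≤ 2 + 4 n nu^2 + n nu / 2 ≤ 79 n nu^2`. `h ≥ 2`, `k = h - 1 ≥ 1`:
`2 + 2 k + k^2 n + k n nu + 4 n nu^2 + k n + n nu / 2 ≤ 6 n (2 k + nu)^2`.
-/

namespace Pool.Agent.H6.QG

open Finset Pool.Agent.H6.LH
open Pool.Agent.H82.CO (chi quadInv nu genus eps zeta rt)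

variable {G : Type} [Group G] [Fintype G] {N : ℕ}

private theorem rt_one_le_Upp : rt (1 : G) ≤ Nat.card G := by
  classical
  rw [rt]
  refine (sum_le_sum (g := fun _ => (1 : ℝ)) fun u _ => ?_).trans (le_of_eq ?_)
  · split_ifs <;> norm_num
  · rw [sum_const, card_univ, nsmul_eq_mul, mul_one, Nat.card_eq_fintype_card]

private theorem rho_nonneg_Upp (s : Fin N → G) : 0 ≤ Pool.Agent.H82.SQ.rho s := by
  unfold Pool.Agent.H82.SQ.rho
  exact sum_nonneg fun i _ => mul_nonneg (by positivity)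
    (sum_nonneg fun k _ => Pool.Agent.H82.SQ.rt_nonneg _)

private theorem arith0_Upp {n ν m t M : ℝ} (hn : 1 ≤ n) (hM0 : 0 ≤ M) (hM : M ≤ 2 * ν)
    (hm : ν = m + 2) (hm6 : 1 / 6 ≤ m) (ht : t ≤ n) :
    n * (1 - ν) - 1 + n * M ^ 2 + 1 + t * (ν - 2) / 2 ≤ 750 * (n * m ^ 2) := by
  have hν : 0 ≤ ν := by linarith
  have h1 : M ^ 2 ≤ 4 * ν ^ 2 := by nlinarith
  have h2 : n * M ^ 2 ≤ n * (4 * ν ^ 2) := mul_le_mul_of_nonneg_left h1 (by linarith)
  have h3 : t * (ν - 2) ≤ n * (ν - 2) := mul_le_mul_of_nonneg_right ht (by linarith)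
  have h4 : ν ^ 2 ≤ 169 * m ^ 2 := by nlinarith
  have h5 : n * (4 * ν ^ 2) ≤ n * (676 * m ^ 2) := mul_le_mul_of_nonneg_left (by linarith) (by linarith)
  have h6 : 0 ≤ n * ν := by positivity
  have h7 : 0 ≤ n * m ^ 2 := by positivity
  nlinarith

private theorem arith1_Upp {n ν t M : ℝ} (hn : 1 ≤ n) (hM0 : 0 ≤ M) (hM : M ≤ 2 * ν)
    (hm6 : 1 / 6 ≤ ν) (ht : t ≤ n) :
    n * M ^ 2 + 2 + t * ν / 2 ≤ 750 * (n * ν ^ 2) := by
  have hν : 0 ≤ ν := by linarith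
  have h1 : M ^ 2 ≤ 4 * ν ^ 2 := by nlinarith
  have h2 : n * M ^ 2 ≤ n * (4 * ν ^ 2) := mul_le_mul_of_nonneg_left h1 (by linarith)
  have h3 : t * ν ≤ n * ν := mul_le_mul_of_nonneg_right ht hν
  have h4 : 1 / 36 ≤ ν ^ 2 := by nlinarith
  have h5 : 1 * (1 / 36) ≤ n * ν ^ 2 := mul_le_mul hn h4 (by norm_num) (by linarith)
  have h6 : n * ν ≤ n * (6 * ν ^ 2) := mul_le_mul_of_nonneg_left (by nlinarith) (by linarith)
  linarith

private theorem arith2_Upp {n ν t M k : ℝ} (hn : 1 ≤ n) (hM0 : 0 ≤ M) (hM : M ≤ 2 * ν)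
    (hk : 1 ≤ k) (ht : t ≤ n) :
    n * k ^ 2 + n * k * ν + n * M ^ 2 + 2 + 2 * k + t * (k + ν / 2) ≤
      750 * (n * (2 * k + ν) ^ 2) := by
  have hν : 0 ≤ ν := by linarith
  have h1 : M ^ 2 ≤ 4 * ν ^ 2 := by nlinarith
  have h2 : n * M ^ 2 ≤ n * (4 * ν ^ 2) := mul_le_mul_of_nonneg_left h1 (by linarith)
  have h3 : t * (k + ν / 2) ≤ n * (k + ν / 2) := mul_le_mul_of_nonneg_right ht (by linarith)
  have h4 : k ≤ k ^ 2 := by nlinarith
  have h5 : n * k ≤ n * k ^ 2 := mul_le_mul_of_nonneg_left h4 (by linarith)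
  have h6 : 1 * k ≤ n * k := mul_le_mul_of_nonneg_right hn (by linarith)
  have h7 : ν * 1 ≤ ν * k := mul_le_mul_of_nonneg_left hk hν
  have h8 : n * ν ≤ n * (k * ν) := mul_le_mul_of_nonneg_left (by linarith) (by linarith)
  have h9 : 0 ≤ n * (k * ν) := by positivity
  have h10 : 0 ≤ n * ν ^ 2 := by positivity
  have h11 : 0 ≤ n * k ^ 2 := by positivity
  have h12 : n * (2 * k + ν) ^ 2 = 4 * (n * k ^ 2) + 4 * (n * (k * ν)) + n * ν ^ 2 := by ring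
  rw [h12]
  nlinarith

theorem upper (h : ℕ) (s : Fin N → G) (hN : h = 0 → 4 ≤ N) (hs : ∀ i, s i ≠ 1) (hg : 1 < genusB h s) :
    (quadB h s).re ≤ 1500 * ((genusB h s - 1) ^ 2 / (Nat.card G : ℝ)) := by
  have hn : (1 : ℝ) ≤ Nat.card G := by exact_mod_cast Nat.card_pos (α := G)
  have hc := card_le h s hN hs hg
  have hT := tensor_le s
  have h2q := Pool.Agent.H82.SQ.two_quadInv s
  have hq := quadB_eq h s
  have hν := Pool.Agent.H82.CO.nu_ge s hs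
  have hr := rho_nonneg_Upp s
  have ht1 := rt_one_le_Upp (G := G)
  have hM0 : (0 : ℝ) ≤ N := Nat.cast_nonneg _
  have hsq : (genusB h s - 1) ^ 2 / (Nat.card G : ℝ) =
      (Nat.card G : ℝ) * (2 * (h : ℝ) - 2 + nu s) ^ 2 / 4 := by
    have hn0 : (Nat.card G : ℝ) ≠ 0 := by linarith
    rw [genusB_eq]
    field_simp
    ring
  rw [hsq]
  have hm6 : 1 / 6 ≤ 2 * (h : ℝ) - 2 + nu s := by
    rw [genusB_eq] at hc
    by_contra hcon
    push Not at hcon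
    have h1 : (Nat.card G : ℝ) * (2 * (h : ℝ) - 2 + nu s) < (Nat.card G : ℝ) * (1 / 6) :=
      mul_lt_mul_of_pos_left hcon (by linarith)
    linarith
  generalize (quadInv s + Pool.Agent.H82.CO.extInv s).re = T at *
  generalize (quadInv s).re = q at *
  generalize (quadB h s).re = Q at *
  generalize Pool.Agent.H82.SQ.rho s = r at *
  generalize rt (1 : G) = t at *
  generalize nu s = ν at *
  generalize (Nat.card G : ℝ) = n at *
  generalize (N : ℝ) = M at *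
  rcases (by omega : h = 0 ∨ h = 1 ∨ 2 ≤ h) with h0 | h1 | h2
  · subst h0
    push_cast at *
    have ha := arith0_Upp (n := n) (ν := ν) (m := 2 * 0 - 2 + ν) (t := t) (M := M) hn hM0 (by linarith)
      (by ring) hm6 ht1
    linarith
  · subst h1
    push_cast at *
    have ha := arith1_Upp (n := n) (ν := ν) (t := t) (M := M) hn hM0 (by linarith) (by linarith) ht1
    have hb : (2 * 1 - 2 + ν) ^ 2 = ν ^ 2 := by ring
    rw [hb]
    linarith
  · have hk : (2 : ℝ) ≤ h := by exact_mod_cast h2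
    generalize (h : ℝ) = H at *
    have ha := arith2_Upp (n := n) (ν := ν) (t := t) (M := M) (k := H - 1) hn hM0 (by linarith)
      (by linarith) ht1
    have hb : (2 * H - 2 + ν) ^ 2 = (2 * (H - 1) + ν) ^ 2 := by ring
    rw [hb]
    nlinarith

end Pool.Agent.H6.QG
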