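import Pool.Agent.H6.LH.All
import Pool.Agent.H6.QG.Low6
import Pool.Agent.H6.QG.LowH
import Pool.Agent.H6.QG.Upp

set_option autoImplicit false

/-!
PROJECT QG (MP_bf82d2_ag, note 6459), module Main.
-/

namespace Pool.Agent.H6.QG

open Finset Pool.Agent.H6.LH
open Pool.Agent.H82.CO (chi quadInv nu genus eps zeta rt)

/-- base genus at most `1`, at most five branch points -/
theorem sq_le {G : Type} [Group G] [Fintype G] {N : ℕ} (h : ℕ) (hh : h ≤ 1) (s : Fin N → G) (hN : N ≤ 5)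
    (hg : 1 < genusB h s) : genusB h s ^ 2 / (Nat.card G : ℝ) ≤ 7 / 2 * genusB h s := by
  have hn : (1 : ℝ) ≤ Nat.card G := by exact_mod_cast Nat.card_pos (α := G)
  have hNR : (N : ℝ) ≤ 5 := by exact_mod_cast hN
  have hhR : (h : ℝ) ≤ 1 := by exact_mod_cast hh
  have h1 : genusB h s ≤ 7 / 2 * (Nat.card G : ℝ) := by
    rw [genusB_eq]
    have h3 := nu_leB s
    have h4 : (Nat.card G : ℝ) * (2 * (h : ℝ) - 2 + nu s) ≤ (Nat.card G : ℝ) * 5 :=
      mul_le_mul_of_nonneg_left (by linarith) (by linarith)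
    linarith
  rw [div_le_iff₀ (by linarith)]
  nlinarith

theorem main : ∃ ε : ℝ, 0 < ε ∧ ∀ (G : Type) [Group G] [Fintype G] (h N : ℕ) (a b : Fin h → G)
    (s : Fin N → G), (h = 0 → 4 ≤ N) → (∀ i, s i ≠ 1) →
    (List.ofFn fun j => a j * b j * (a j)⁻¹ * (b j)⁻¹).prod * (List.ofFn s).prod = 1 →
    Subgroup.closure (Set.range a ∪ Set.range b ∪ Set.range s) = ⊤ → 1 < genusB h s →
    ε * (genusB h s ^ 2 / (Nat.card G : ℝ)) - 7 ≤ (quadB h s).re - (3 * (h : ℝ) - 3 + N) ∧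
      (h = 0 → ε * (genusB h s ^ 2 / (Nat.card G : ℝ)) - 4 ≤ (quadB h s).re - (3 * (h : ℝ) - 3 + N)) ∧
      (quadB h s).re ≤ 1500 * ((genusB h s - 1) ^ 2 / (Nat.card G : ℝ)) ∧
      (Nat.card G : ℝ) ≤ 12 * (genusB h s - 1) ∧ (h : ℝ) ≤ genusB h s ∧
      (N : ℝ) ≤ 2 * genusB h s + 2 ∧ (h = 0 → (quadB h s).re ≤ (N : ℝ) - 3 → N ≤ 14) := by
  obtain ⟨ε, hε, hall⟩ := all
  obtain ⟨e, he⟩ : ∃ e : ℝ, e = min (2 / 7 * ε) (1 / 1000) := ⟨_, rfl⟩
  have he1 : e ≤ 2 / 7 * ε := by rw [he]; exact min_le_left _ _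
  have he2 : e ≤ 1 / 1000 := by rw [he]; exact min_le_right _ _
  refine ⟨e, by rw [he]; exact lt_min (by linarith) (by norm_num), fun G _ _ h N a b s hN hs hp hgen hg => ?_⟩
  obtain ⟨h7, h4, hc, hb, hbr, h14⟩ := hall G h N a b s hN hs hp hgen hg
  have hup := upper h s hN hs hg
  have hn : (0 : ℝ) < Nat.card G := by exact_mod_cast Nat.card_pos (α := G)
  have hq : 0 ≤ genusB h s ^ 2 / (Nat.card G : ℝ) := by positivity
  refine ⟨?_, ?_, hup, hc, hb, hbr, h14⟩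
  · by_cases hN6 : 6 ≤ N
    · have h1 := low6 h s hs hN6
      have h2 := mul_le_mul_of_nonneg_right he2 hq
      linarith
    have hN5 : N ≤ 5 := by omega
    by_cases hh2 : 2 ≤ h
    · have h1 := lowH h hh2 s hs hN5
      have h2 := mul_le_mul_of_nonneg_right he2 hq
      linarith
    · have h1 := sq_le h (by omega) s hN5 hg
      have h2 := mul_le_mul_of_nonneg_right he1 hq
      have h3 := mul_le_mul_of_nonneg_left h1 (by linarith : 0 ≤ 2 / 7 * ε)
      linarith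
  · intro h0
    by_cases hN6 : 6 ≤ N
    · have h1 := low6 h s hs hN6
      have h2 := mul_le_mul_of_nonneg_right he2 hq
      linarith
    have hN5 : N ≤ 5 := by omega
    have h1 := sq_le h (by omega) s hN5 hg
    have h2 := mul_le_mul_of_nonneg_right he1 hq
    have h3 := mul_le_mul_of_nonneg_left h1 (by linarith : 0 ≤ 2 / 7 * ε)
    have h5 := h4 h0
    linarith

end Pool.Agent.H6.QG
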