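import Pool.Agent.H6.FF.Fx
import Pool.Agent.H6.FF.IrrB
import Pool.Agent.H6.FF.IrrC
import Pool.Agent.H6.FF.Eig
import Pool.Agent.H6.FF.Sta
import Pool.Agent.H6.FF.RkL

set_option autoImplicit false

/-!
PROJECT QG (MP_bf82d2_ag, note 6459), module Upq.  Upper bound for the tensor square (formal in `s`: no relation, no generation).
PROOF. `E g = ∑ i, gt s i g`, `chi s g = 1 - n [g = 1] + E g` (`Pool.Agent.H6.FF.chi_eq`; `gt` in `Pool/Agent/H6/FF/Defs.lean`). For `ψ ∈ irr G`: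
`ip E ψ = ∑ i, angs ψ (s i) (orderOf (s i))` (exchange the sums; `ψ (x c x⁻¹) = ψ c`: `cl_of_irr`), a real number `A ψ` with `0 ≤ A ψ ≤ N * (ψ 1).re`
(`ang_facts`: `a + a' = r ≤ (ψ 1).re`, `0 ≤ r / o ≤ a'`), the same for `cj ψ`. `(1 / n) ∑ g, E g ^ 2 = ∑ ψ ∈ irr G, ip E ψ * ip E (cj ψ)` (the private lemma `sq_Sta` of
`Pool/Agent/H6/FF/Sta.lean`, copy it; `E` is a class function), `≤ N^2 ∑ (ψ 1).re^2 = N^2 n` (`sum_sq`). Finally
`(quadInv s + extInv s) = (1 / n) ∑ chi ^ 2 = (1 / n) ∑ (1 - n [g = 1])^2 + (2 / n) ∑ (1 - n [g = 1]) E g + (1 / n) ∑ E^2 = (n - 1) - 2 E 1 + (1 / n) ∑ E^2`: `∑ g, E g = 0` (the angle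
of the trivial character is `0`: `ip E 1 = 0`) and `E 1 = n nu / 2` (`chi_one'`).
-/

namespace Pool.Agent.H6.QG

open Finset Module Pool.Agent.H6.FF
open Pool.Agent.H82.CO (chi quadInv extInv nu genus eps zeta)

variable {G : Type} [Group G] [Fintype G] {N : ℕ}

/-- `E g` -/
private noncomputable def EUpq (s : Fin N → G) (g : G) : ℂ := ∑ i, gt s i g

private theorem card_ne_Upq : (Nat.card G : ℂ) ≠ 0 := by
  have h : 0 < Nat.card G := Nat.card_pos
  exact_mod_cast h.ne'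

omit [Group G] in
private theorem ip_cj_Upq (f ψ : G → ℂ) : (starRingEnd ℂ) (ip (cj f) ψ) = ip f (cj ψ) := by
  unfold ip cj
  rw [map_mul, map_sum]
  have h1 : (starRingEnd ℂ) (1 / (Nat.card G : ℂ)) = 1 / (Nat.card G : ℂ) := by
    rw [map_div₀, map_one, Complex.conj_natCast]
  rw [h1]
  refine congrArg _ (Finset.sum_congr rfl fun x _ => ?_)
  rw [map_mul, Complex.conj_conj]

private theorem sq_Upq {f : G → ℂ} (hf : IsCl f) :
    (1 / (Nat.card G : ℂ)) * ∑ x, f x ^ 2 = ∑ ψ ∈ irr G, ip f ψ * ip f (cj ψ) := by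
  have hcl : IsCl (cj f) := fun g x => by simp only [cj]; rw [hf g x]
  have h1 := parseval hf hcl
  have h2 : ip f (cj f) = (1 / (Nat.card G : ℂ)) * ∑ x, f x ^ 2 := by
    unfold ip cj
    refine congrArg _ (Finset.sum_congr rfl fun x _ => ?_)
    rw [Complex.conj_conj, sq]
  rw [← h2, h1]
  exact Finset.sum_congr rfl fun ψ _ => by rw [ip_cj_Upq]

private theorem gt_cl_Upq (s : Fin N → G) (i : Fin N) : IsCl (gt s i) := by
  classical
  intro g y
  unfold gt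
  refine congrArg _ ?_
  rw [← Equiv.sum_comp (Equiv.mulLeft y)]
  refine sum_congr rfl fun x _ => sum_congr rfl fun k _ => ?_
  have h : (Equiv.mulLeft y x * s i ^ k * (Equiv.mulLeft y x)⁻¹ = y * g * y⁻¹) ↔ (x * s i ^ k * x⁻¹ = g) := by
    simp only [Equiv.coe_mulLeft, mul_inv_rev]
    constructor
    · intro h
      have h2 := congrArg (fun u => y⁻¹ * u * y) h
      simpa [mul_assoc] using h2
    · intro h
      rw [← h]
      simp [mul_assoc]
  simp only [h]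

private theorem E_cl_Upq (s : Fin N → G) : IsCl (EUpq s) := fun g x => by
  unfold EUpq
  exact sum_congr rfl fun i _ => gt_cl_Upq s i g x

private theorem ip_gt_Upq (s : Fin N → G) (i : Fin N) {ψ : G → ℂ} (hψ : IsCl ψ) :
    ip (gt s i) ψ = angs ψ (s i) (orderOf (s i)) := by
  classical
  unfold ip angs gt
  have h1 : ∀ g : G, (1 / (orderOf (s i) : ℂ)) * (∑ x : G, ∑ k ∈ range (orderOf (s i)),
      if x * s i ^ k * x⁻¹ = g then eps (orderOf (s i)) k else 0) * (starRingEnd ℂ) (ψ g) =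
      (1 / (orderOf (s i) : ℂ)) * ∑ x : G, ∑ k ∈ range (orderOf (s i)),
        if x * s i ^ k * x⁻¹ = g then eps (orderOf (s i)) k * (starRingEnd ℂ) (ψ g) else 0 := by
    intro g
    rw [mul_assoc, sum_mul]
    refine congrArg _ (sum_congr rfl fun x _ => ?_)
    rw [sum_mul]
    refine sum_congr rfl fun k _ => ?_
    split_ifs <;> simp
  rw [sum_congr rfl fun g _ => h1 g, ← mul_sum, sum_comm]
  have h2 : ∀ x : G, ∑ g : G, ∑ k ∈ range (orderOf (s i)),
      (if x * s i ^ k * x⁻¹ = g then eps (orderOf (s i)) k * (starRingEnd ℂ) (ψ g) else 0) =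
      ∑ k ∈ range (orderOf (s i)), eps (orderOf (s i)) k * (starRingEnd ℂ) (ψ (s i ^ k)) := by
    intro x
    rw [sum_comm]
    refine sum_congr rfl fun k _ => ?_
    rw [sum_ite_eq, if_pos (mem_univ _), hψ]
  rw [sum_congr rfl fun x _ => h2 x, sum_const, nsmul_eq_mul, card_univ, ← Nat.card_eq_fintype_card]
  have h3 := card_ne_Upq (G := G)
  field_simp

private theorem ip_E_Upq (s : Fin N → G) {ψ : G → ℂ} (hψ : IsCl ψ) :
    ip (EUpq s) ψ = ∑ i, angs ψ (s i) (orderOf (s i)) := by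
  rw [← sum_congr rfl fun i _ => ip_gt_Upq s i hψ]
  unfold ip EUpq
  rw [← mul_sum, sum_comm]
  refine congrArg _ (sum_congr rfl fun x _ => ?_)
  rw [sum_mul]

private theorem A_Upq (s : Fin N → G) {ψ : G → ℂ} (hψ : IsIrr ψ) :
    ∃ A A' : ℝ, ip (EUpq s) ψ = A ∧ ip (EUpq s) (cj ψ) = A' ∧ 0 ≤ A ∧ 0 ≤ A' ∧
      A ≤ N * (ψ 1).re ∧ A' ≤ N * (ψ 1).re := by
  choose a a' r h1 h2 h3 h4 h5 h6 h7 h8 h9 h10 using fun i : Fin N =>
    ang_facts hψ (s i) (orderOf_pos (s i)) (pow_orderOf_eq_one (s i))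
  have h0 : ∀ i, 0 ≤ r i / (orderOf (s i) : ℝ) := fun i => div_nonneg (h6 i) (Nat.cast_nonneg _)
  refine ⟨∑ i, a i, ∑ i, a' i, ?_, ?_, ?_, ?_, ?_, ?_⟩
  · rw [ip_E_Upq s (cl_of_irr hψ), Complex.ofReal_sum]
    exact sum_congr rfl fun i _ => h1 i
  · rw [ip_E_Upq s (cl_of_irr (irr_cj hψ)), Complex.ofReal_sum]
    exact sum_congr rfl fun i _ => h2 i
  · exact sum_nonneg fun i _ => (h0 i).trans (h8 i)
  · exact sum_nonneg fun i _ => (h0 i).trans (h9 i)
  · calc ∑ i, a i ≤ ∑ _i : Fin N, (ψ 1).re :=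
          sum_le_sum fun i _ => by linarith [h0 i, h9 i, h5 i, h7 i]
      _ = N * (ψ 1).re := by simp
  · calc ∑ i, a' i ≤ ∑ _i : Fin N, (ψ 1).re :=
          sum_le_sum fun i _ => by linarith [h0 i, h8 i, h5 i, h7 i]
      _ = N * (ψ 1).re := by simp

private theorem sumE_Upq (s : Fin N → G) : ∑ g, EUpq s g = 0 := by
  have hlin : IsLin (fun _ : G => (1 : ℂ)) := ⟨rfl, fun _ _ => by simp, fun _ => by simp⟩
  have hirr := irr_lin hlin
  have h1 := ip_E_Upq s (cl_of_irr hirr)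
  have h2 : ∀ i : Fin N, angs (fun _ : G => (1 : ℂ)) (s i) (orderOf (s i)) = 0 := by
    intro i
    obtain ⟨a, a', r, e1, -, e3, -, e5, e6, -, e8, e9, -⟩ :=
      ang_facts hirr (s i) (orderOf_pos (s i)) (pow_orderOf_eq_one (s i))
    have ho : (orderOf (s i) : ℂ) ≠ 0 := by exact_mod_cast (orderOf_pos (s i)).ne'
    have h3 : fixs (fun _ : G => (1 : ℂ)) (s i) (orderOf (s i)) = 1 := by
      unfold fixs
      rw [sum_const, card_range, nsmul_eq_mul, mul_one]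
      field_simp
    rw [h3] at e3
    have h4 : (r : ℂ) = 0 := by linear_combination e3
    have h5 : r = 0 := by exact_mod_cast h4
    rw [h5] at e5 e8 e9
    rw [zero_div] at e8 e9
    have h6 : a = 0 := by linarith
    rw [e1, h6, Complex.ofReal_zero]
  rw [sum_congr rfl fun i _ => h2 i, sum_const_zero] at h1
  unfold ip at h1
  simp only [map_one, mul_one] at h1
  rcases mul_eq_zero.mp h1 with h | h
  · exact absurd h (by simp)
  · exact h

private theorem sqE_Upq (s : Fin N → G) :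
    ((1 / (Nat.card G : ℂ)) * ∑ g, EUpq s g ^ 2).re ≤ (Nat.card G : ℝ) * (N : ℝ) ^ 2 := by
  rw [sq_Upq (E_cl_Upq s), Complex.re_sum]
  calc ∑ ψ ∈ irr G, (ip (EUpq s) ψ * ip (EUpq s) (cj ψ)).re
      ≤ ∑ ψ ∈ irr G, (N : ℝ) ^ 2 * (ψ 1).re ^ 2 := by
        refine sum_le_sum fun ψ hψ => ?_
        obtain ⟨A, A', h1, h2, h3, h4, h5, h6⟩ := A_Upq s (mem_irr.mp hψ)
        rw [h1, h2, ← Complex.ofReal_mul, Complex.ofReal_re]
        calc A * A' ≤ (N * (ψ 1).re) * (N * (ψ 1).re) := mul_le_mul h5 h6 h4 (h3.trans h5)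
          _ = (N : ℝ) ^ 2 * (ψ 1).re ^ 2 := by ring
    _ = (Nat.card G : ℝ) * (N : ℝ) ^ 2 := by rw [← mul_sum, sum_sq, mul_comm]

private theorem expand_Upq (s : Fin N → G) : quadInv s + extInv s =
    (Nat.card G : ℂ) - 1 - 2 * EUpq s 1 + (1 / (Nat.card G : ℂ)) * ∑ g, EUpq s g ^ 2 := by
  classical
  have h3 := card_ne_Upq (G := G)
  have h1 : quadInv s + extInv s = (1 / (Nat.card G : ℂ)) * ∑ g : G, chi s g ^ 2 := by
    unfold quadInv extInv
    rw [← mul_add, ← sum_add_distrib]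
    have h2 : ∀ g : G, chi s g ^ 2 + chi s (g ^ 2) + (chi s g ^ 2 - chi s (g ^ 2)) = 2 * chi s g ^ 2 :=
      fun g => by ring
    rw [sum_congr rfl fun g _ => h2 g, ← mul_sum]
    field_simp
  rw [h1]
  have h2 : ∀ g : G, chi s g ^ 2 = 1 + 2 * EUpq s g + EUpq s g ^ 2 +
      (if g = 1 then (Nat.card G : ℂ) ^ 2 - 2 * Nat.card G - 2 * Nat.card G * EUpq s g else 0) := by
    intro g
    rw [chi_eq]
    have h4 : ∑ i, gt s i g = EUpq s g := rfl
    rw [h4]
    split_ifs <;> ring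
  rw [sum_congr rfl fun g _ => h2 g, sum_add_distrib, sum_add_distrib, sum_add_distrib, sum_ite_eq' univ (1 : G),
    if_pos (mem_univ _), ← mul_sum, sumE_Upq, sum_const, card_univ, ← Nat.card_eq_fintype_card, nsmul_eq_mul]
  field_simp
  ring

theorem tensor_le (s : Fin N → G) : (quadInv s + extInv s).re ≤
    (Nat.card G : ℝ) * (1 - nu s) - 1 + (Nat.card G : ℝ) * (N : ℝ) ^ 2 := by
  classical
  have h1 := sqE_Upq s
  have h2 : EUpq s 1 = (((Nat.card G : ℝ) * nu s / 2 : ℝ) : ℂ) := by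
    have h3 := chi_one' s
    rw [chi_eq, if_pos rfl] at h3
    have h4 : ∑ i, gt s i 1 = EUpq s 1 := rfl
    rw [h4] at h3
    push_cast at h3 ⊢
    linear_combination h3
  rw [expand_Upq, Complex.add_re, Complex.sub_re, Complex.sub_re, h2, Complex.natCast_re, Complex.one_re]
  have h5 : (2 * (((Nat.card G : ℝ) * nu s / 2 : ℝ) : ℂ)).re = (Nat.card G : ℝ) * nu s := by
    rw [show (2 : ℂ) * (((Nat.card G : ℝ) * nu s / 2 : ℝ) : ℂ) = (((Nat.card G : ℝ) * nu s : ℝ) : ℂ) by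
      push_cast; ring, Complex.ofReal_re]
  rw [h5]
  linarith

end Pool.Agent.H6.QG
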